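import Pool.Agent.X194.SepSpan.Count

/-!
# MP_307271_an: transitive systems where spanning or separation growth rates oscillate

Both Q1 and Q2 have a positive answer.
-/

namespace Pool.Agent.Results.MP_307271_an.OscillatingGrowth

open Filter Topology Pool.Agent.X194.SepSpan

/-! ### definitions of the statement -/

section Defs

variable {X : Type} [MetricSpace X]

/-- `D_T(x,y)`, the maximum of `D(F^t x, F^t y)` over `0 ≤ t < T` -/
noncomputable def DT (F : X ≃ₜ X) (T : ℕ) (x y : X) : ℝ :=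
  ⨆ t : Fin T, dist ((F : X → X)^[t] x) ((F : X → X)^[t] y)

/-- `ε`-separated sets for `D_T` -/
def IsSep (F : X ≃ₜ X) (T : ℕ) (ε : ℝ) (S : Finset X) : Prop :=
  ∀ x ∈ S, ∀ y ∈ S, x ≠ y → ε ≤ DT F T x y

/-- `ε`-spanning sets for `D_T` -/
def IsSpan (F : X ≃ₜ X) (T : ℕ) (ε : ℝ) (S : Finset X) : Prop :=
  ∀ x, ∃ s ∈ S, DT F T s x < ε

/-- the largest size of an `ε`-separated set -/
noncomputable def sep (F : X ≃ₜ X) (T : ℕ) (ε : ℝ) : ℕ :=
  sSup {n | ∃ S : Finset X, IsSep F T ε S ∧ S.card = n}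

/-- the smallest size of an `ε`-spanning set -/
noncomputable def span (F : X ≃ₜ X) (T : ℕ) (ε : ℝ) : ℕ :=
  sInf {n | ∃ S : Finset X, IsSpan F T ε S ∧ S.card = n}

/-- the growth rate at time `T` -/
noncomputable def rate (u : ℕ → ℕ) (T : ℕ) : EReal := ((Real.log (u T) / T : ℝ) : EReal)

/-- lower growth rate of `sep` -/
noncomputable def sLow (F : X ≃ₜ X) (ε : ℝ) : EReal := liminf (rate fun T => sep F T ε) atTop

/-- upper growth rate of `sep` -/
noncomputable def sUp (F : X ≃ₜ X) (ε : ℝ) : EReal := limsup (rate fun T => sep F T ε) atTop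

/-- lower growth rate of `span` -/
noncomputable def pLow (F : X ≃ₜ X) (ε : ℝ) : EReal := liminf (rate fun T => span F T ε) atTop

/-- upper growth rate of `span` -/
noncomputable def pUp (F : X ≃ₜ X) (ε : ℝ) : EReal := limsup (rate fun T => span F T ε) atTop

/-- topological entropy -/
noncomputable def entropy (F : X ≃ₜ X) : EReal := ⨆ (ε : ℝ) (_ : 0 < ε), sUp F ε

/-- topological transitivity: some point has a dense forward orbit -/
def Transitive (F : X ≃ₜ X) : Prop := ∃ x : X, Dense (Set.range fun n : ℕ => (F : X → X)^[n] x)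

end Defs

/-! ### general lemmas -/

section Gen

variable {X : Type} [MetricSpace X] (F : X ≃ₜ X)

lemma le_DT {T : ℕ} {ε : ℝ} (hε : 0 < ε) {x y : X} :
    ε ≤ DT F T x y ↔ ∃ t : Fin T, ε ≤ dist ((F : X → X)^[t] x) ((F : X → X)^[t] y) := by
  unfold DT
  constructor
  · intro h
    rcases Nat.eq_zero_or_pos T with h0 | h0
    · subst h0
      rw [Real.iSup_of_isEmpty] at h
      linarith
    · haveI : Nonempty (Fin T) := ⟨⟨0, h0⟩⟩
      obtain ⟨t, ht⟩ := exists_eq_ciSup_of_finite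
        (f := fun t : Fin T => dist ((F : X → X)^[t] x) ((F : X → X)^[t] y))
      exact ⟨t, by rw [ht]; exact h⟩
  · rintro ⟨t, ht⟩
    exact ht.trans (le_ciSup (f := fun t : Fin T => dist ((F : X → X)^[t] x) ((F : X → X)^[t] y))
      (Set.finite_range _).bddAbove t)

lemma DT_lt {T : ℕ} {ε : ℝ} (hε : 0 < ε) {x y : X} :
    DT F T x y < ε ↔ ∀ t : Fin T, dist ((F : X → X)^[t] x) ((F : X → X)^[t] y) < ε := by
  rw [← not_le, le_DT F hε]
  push Not
  rfl

lemma DT_self {T : ℕ} (x : X) : DT F T x x = 0 := by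
  unfold DT
  simp

lemma DT_comm {T : ℕ} (x y : X) : DT F T x y = DT F T y x := by
  unfold DT
  simp only [dist_comm]

lemma sep_le {T : ℕ} {ε : ℝ} {B : ℕ} (h : ∀ S, IsSep F T ε S → S.card ≤ B) : sep F T ε ≤ B := by
  apply csSup_le
  · exact ⟨0, ∅, fun x hx => by simp at hx, rfl⟩
  · rintro n ⟨S, hS, rfl⟩
    exact h S hS

lemma le_sep {T : ℕ} {ε : ℝ} {B : ℕ} (h : ∀ S, IsSep F T ε S → S.card ≤ B) {S : Finset X}
    (hS : IsSep F T ε S) : S.card ≤ sep F T ε := by
  apply le_csSup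
  · refine ⟨B, ?_⟩
    rintro n ⟨S, hS, rfl⟩
    exact h S hS
  · exact ⟨S, hS, rfl⟩

lemma span_le {T : ℕ} {ε : ℝ} {S : Finset X} (hS : IsSpan F T ε S) : span F T ε ≤ S.card :=
  Nat.sInf_le ⟨S, hS, rfl⟩

lemma le_span {T : ℕ} {ε : ℝ} {B : ℕ} (h : ∀ S, IsSpan F T ε S → B ≤ S.card)
    {S₀ : Finset X} (h0 : IsSpan F T ε S₀) : B ≤ span F T ε := by
  obtain ⟨S, hS, e⟩ := Nat.sInf_mem (s := {n | ∃ S : Finset X, IsSpan F T ε S ∧ S.card = n})
    ⟨_, S₀, h0, rfl⟩
  have := h S hS
  unfold span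
  omega

/-- maximal separated sets span -/
lemma exists_max {T : ℕ} {ε : ℝ} (hε : 0 < ε) (Y : Set X) {B : ℕ}
    (h : ∀ S, IsSep F T ε S → (∀ x ∈ S, x ∈ Y) → S.card ≤ B) :
    ∃ S : Finset X, S.card ≤ B ∧ IsSep F T ε S ∧ ∀ x ∈ Y, ∃ s ∈ S, DT F T s x < ε := by
  classical
  let Q : ℕ → Prop := fun n => ∃ S : Finset X, IsSep F T ε S ∧ (∀ x ∈ S, x ∈ Y) ∧ S.card = n
  have hQ0 : Q 0 := ⟨∅, fun x hx => by simp at hx, fun x hx => by simp at hx, rfl⟩
  have hQB : ∀ n, Q n → n ≤ B := by
    rintro n ⟨S, hS, hY, rfl⟩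
    exact h S hS hY
  have hfind := Nat.findGreatest_spec (P := Q) (n := B) (m := 0) (Nat.zero_le _) hQ0
  obtain ⟨S, hS, hY, hcard⟩ := hfind
  refine ⟨S, h S hS hY, hS, fun x hx => ?_⟩
  by_contra hcon
  push Not at hcon
  have hxS : x ∉ S := by
    intro hxS
    have := hcon x hxS
    rw [DT_self] at this
    linarith
  have hQ' : Q (S.card + 1) := by
    refine ⟨insert x S, ?_, ?_, Finset.card_insert_of_notMem hxS⟩
    · intro a ha b hb hab
      rw [Finset.mem_insert] at ha hb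
      rcases ha with rfl | ha <;> rcases hb with rfl | hb
      · exact (hab rfl).elim
      · rw [DT_comm]; exact hcon b hb
      · exact hcon a ha
      · exact hS a ha b hb hab
    · intro a ha
      rw [Finset.mem_insert] at ha
      rcases ha with rfl | ha
      · exact hx
      · exact hY a ha
  have h1 := Nat.le_findGreatest (hQB _ hQ') hQ'
  omega

lemma span_le_sep {T : ℕ} {ε : ℝ} (hε : 0 < ε) {B : ℕ} (h : ∀ S, IsSep F T ε S → S.card ≤ B) :
    span F T ε ≤ sep F T ε := by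
  obtain ⟨S, -, hS, hspan⟩ := exists_max F hε Set.univ (fun S hS _ => h S hS)
  exact (span_le F (fun x => hspan x (Set.mem_univ x))).trans (le_sep F h hS)

end Gen

/-! ### the shift -/

variable {R : ℕ}

lemma sh_iter0 (t : ℕ) (x : XS R) : ((sh R : XS R → XS R)^[t] x).1 0 = x.1 t := by
  rw [sh_iter]; simp

/-- at scales in `(4, 8]` separation is the relation `Sp` -/
lemma isSep_iff {T : ℕ} {δ : ℝ} (h1 : 4 < δ) (h2 : δ ≤ 8) (S : Finset (XS R)) :
    IsSep (sh R) T δ S ↔ SepW T S := by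
  have key : ∀ x x' : XS R, δ ≤ DT (sh R) T x x' ↔ ∃ t : Fin T, A.Sp (x.1 t) (x'.1 t) := by
    intro x x'
    rw [le_DT (sh R) (by linarith)]
    refine exists_congr fun t => ?_
    constructor
    · intro h
      by_contra hns
      rw [← sh_iter0, ← sh_iter0] at hns
      have := dist_not_sp hns
      linarith
    · intro h
      rw [← sh_iter0, ← sh_iter0] at h
      exact h2.trans (dist_sp h)
  constructor
  · intro h x hx x' hx' hne
    exact (key x x').1 (h x hx x' hx' hne)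
  · intro h x hx x' hx' hne
    exact (key x x').2 (h x hx x' hx' hne)

lemma DT_lt8 {T : ℕ} (x x' : XS R) :
    DT (sh R) T x x' < 8 ↔ ∀ t : ℕ, t < T → ¬ A.Sp (x.1 t) (x'.1 t) := by
  rw [DT_lt (sh R) (by norm_num)]
  constructor
  · intro h t ht hsp
    have h1 := h ⟨t, ht⟩
    rw [← sh_iter0, ← sh_iter0] at hsp
    have := dist_sp hsp
    simp only at h1
    linarith
  · intro h t
    have h1 := h t t.2
    rw [← sh_iter0, ← sh_iter0] at h1
    have := dist_not_sp h1
    linarith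

lemma transitive_sh : Transitive (sh R) := by
  refine ⟨⟨y R, y_mem⟩, ?_⟩
  intro x
  rw [mem_closure_iff_nhds]
  intro U hU
  obtain ⟨ε, hε, hball⟩ := Metric.mem_nhds_iff.1 hU
  obtain ⟨n, hn⟩ := dist_lt (R := R) hε
  obtain ⟨i, -, hi⟩ := x.2 n 0
  refine ⟨(sh R : XS R → XS R)^[i] ⟨y R, y_mem⟩, hball ?_, i, rfl⟩
  rw [Metric.mem_ball]
  apply hn
  intro j h1 h2
  rw [sh_iter, hi j h1 h2]
  show y R (j + i) = y R (i + j)
  rw [add_comm]

/-- number of windows -/
noncomputable def pw (R T : ℕ) : ℕ := Nat.card (Set.range fun (x : XS R) (t : Fin T) => x.1 t)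

lemma pw_pos (T : ℕ) : 0 < pw R T := by
  haveI : Nonempty (Set.range fun (x : XS R) (t : Fin T) => x.1 t) :=
    ⟨⟨_, ⟨⟨_, z_mem⟩, rfl⟩⟩⟩
  exact Nat.card_pos

lemma pw_le (T : ℕ) : pw R T ≤ (Nat.card (A R)) ^ T := by
  unfold pw
  have h := Nat.card_le_card_of_injective (α := Set.range fun (x : XS R) (t : Fin T) => x.1 t)
    (β := Fin T → A R) Subtype.val Subtype.val_injective
  rwa [Nat.card_fun, Nat.card_fin] at h

lemma pw_sub (T S : ℕ) : pw R (T + S) ≤ pw R T * pw R S := by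
  unfold pw
  rw [← Nat.card_prod]
  let w : ∀ T : ℕ, XS R → Set.range fun (x : XS R) (t : Fin T) => x.1 t :=
    fun T x => ⟨fun t => x.1 t, x, rfl⟩
  have hs : ∀ a : Set.range fun (x : XS R) (t : Fin (T + S)) => x.1 t, ∃ x : XS R,
      w (T + S) x = a := by
    rintro ⟨_, x, rfl⟩
    exact ⟨x, rfl⟩
  choose F hF using hs
  apply Nat.card_le_card_of_injective
    (fun a => (w T (F a), w S ((sh R : XS R → XS R)^[T] (F a))))
  intro a b hab
  have h1 : w T (F a) = w T (F b) := congrArg Prod.fst hab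
  have h2 : w S ((sh R : XS R → XS R)^[T] (F a)) = w S ((sh R : XS R → XS R)^[T] (F b)) :=
    congrArg Prod.snd hab
  rw [← hF a, ← hF b]
  apply Subtype.ext
  funext t
  show (F a).1 t = (F b).1 t
  rcases lt_or_ge t.1 T with ht | ht
  · exact congrFun (congrArg Subtype.val h1) ⟨t, ht⟩
  · have h3 := congrFun (congrArg Subtype.val h2) ⟨t - T, by omega⟩
    change ((sh R : XS R → XS R)^[T] (F a)).1 ((t.1 - T : ℕ) : ℤ)
      = ((sh R : XS R → XS R)^[T] (F b)).1 ((t.1 - T : ℕ) : ℤ) at h3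
    rw [sh_iter, sh_iter] at h3
    have e : ((t.1 - T : ℕ) : ℤ) + T = (t.1 : ℤ) := by omega
    rwa [e] at h3

/-- upper bound for separated sets at every scale -/
lemma sep_ub {δ : ℝ} (hδ : 0 < δ) : ∃ C : ℕ, 0 < C ∧ ∀ T S, IsSep (sh R) T δ S →
    S.card ≤ C * pw R T := by
  obtain ⟨n, hn⟩ := dist_lt (R := R) hδ
  have hA : 0 < Nat.card (A R) := by
    haveI : Nonempty (A R) := ⟨A.z⟩
    exact Nat.card_pos
  refine ⟨(Nat.card (A R)) ^ n * (Nat.card (A R)) ^ (n + 1), by positivity, fun T S hS => ?_⟩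
  let w : XS R → Set.range fun (x : XS R) (t : Fin T) => x.1 t := fun x => ⟨fun t => x.1 t, x, rfl⟩
  have h := Nat.card_le_card_of_injective (α := S)
    (β := ((Fin n → A R) × (Fin (n + 1) → A R)) ×
      Set.range fun (x : XS R) (t : Fin T) => x.1 t)
    (fun x => ((fun t => x.1.1 (-(t : ℤ) - 1), fun t => x.1.1 (T + t)), w x.1)) (by
      intro x x' hxx
      by_contra hne
      obtain ⟨t, ht⟩ := (le_DT (sh R) hδ).1 (hS x.1 x.2 x'.1 x'.2 fun e => hne (Subtype.ext e))
      have h1 : (fun t : Fin n => x.1.1 (-(t : ℤ) - 1)) = fun t : Fin n => x'.1.1 (-(t : ℤ) - 1) :=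
        congrArg (fun p => p.1.1) hxx
      have h2 : (fun t : Fin (n + 1) => x.1.1 ((T : ℤ) + t))
          = fun t : Fin (n + 1) => x'.1.1 ((T : ℤ) + t) := congrArg (fun p => p.1.2) hxx
      have h3 : w x.1 = w x'.1 := congrArg (fun p => p.2) hxx
      have hlt : dist ((sh R : XS R → XS R)^[t] x.1) ((sh R : XS R → XS R)^[t] x'.1) < δ := by
        apply hn
        intro j hj1 hj2
        rw [sh_iter, sh_iter]
        have htT := t.2
        rcases lt_or_ge (j + t) 0 with hneg | hnn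
        · have := congrFun h1 ⟨(-(j + t) - 1).toNat, by omega⟩
          simp only at this
          have e : -(((-(j + (t : ℤ)) - 1).toNat : ℕ) : ℤ) - 1 = j + t := by omega
          rwa [e] at this
        · rcases lt_or_ge (j + t) (T : ℤ) with hl | hg
          · have := congrFun (congrArg Subtype.val h3) ⟨(j + t).toNat, by omega⟩
            change x.1.1 (((j + (t : ℤ)).toNat : ℕ) : ℤ) = x'.1.1 (((j + (t : ℤ)).toNat : ℕ) : ℤ)
              at this
            have e : (((j + (t : ℤ)).toNat : ℕ) : ℤ) = j + t := by omega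
            rwa [e] at this
          · have := congrFun h2 ⟨(j + t - T).toNat, by omega⟩
            simp only at this
            have e : (T : ℤ) + (((j + (t : ℤ) - T).toNat : ℕ) : ℤ) = j + t := by omega
            rwa [e] at this
      linarith)
  rw [Nat.card_prod, Nat.card_prod, Nat.card_fun, Nat.card_fun, Nat.card_fin, Nat.card_fin] at h
  have h0 : Nat.card S = S.card := by rw [Nat.card_eq_fintype_card, Fintype.card_coe]
  rw [h0] at h
  exact h

/-- lower bound for separated sets at small scales -/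
lemma sep_lb {δ : ℝ} (hδ : 0 < δ) (hδ4 : δ ≤ 4) (T : ℕ) : ∃ S, IsSep (sh R) T δ S ∧
    S.card = pw R T := by
  classical
  haveI : Fintype (Set.range fun (x : XS R) (t : Fin T) => x.1 t) := Fintype.ofFinite _
  have hs : ∀ a : Set.range fun (x : XS R) (t : Fin T) => x.1 t, ∃ x : XS R,
      (fun t : Fin T => x.1 t) = a.1 := by
    rintro ⟨_, x, rfl⟩
    exact ⟨x, rfl⟩
  choose F hF using hs
  have hinj : Function.Injective F := by
    intro a b hab
    apply Subtype.ext
    rw [← hF a, ← hF b, hab]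
  refine ⟨Finset.univ.image F, ?_, ?_⟩
  · intro x hx x' hx' hne
    obtain ⟨a, -, rfl⟩ := Finset.mem_image.1 hx
    obtain ⟨b, -, rfl⟩ := Finset.mem_image.1 hx'
    rw [le_DT (sh R) hδ]
    have hab : a.1 ≠ b.1 := fun e => hne (by rw [Subtype.ext e])
    rw [← hF a, ← hF b] at hab
    obtain ⟨t, ht⟩ := Function.ne_iff.1 hab
    refine ⟨t, hδ4.trans (dist_ne ?_)⟩
    rw [sh_iter0, sh_iter0]
    exact ht
  · rw [Finset.card_image_of_injective _ hinj, Finset.card_univ, pw, Nat.card_eq_fintype_card]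

/-! ### estimates -/

lemma log_le_log' {N B : ℕ} (h : N ≤ B) (hB : 1 ≤ B) : Real.log N ≤ Real.log B := by
  rcases Nat.eq_zero_or_pos N with h0 | h0
  · subst h0
    simp only [Nat.cast_zero, Real.log_zero]
    exact Real.log_nonneg (by exact_mod_cast hB)
  · exact Real.log_le_log (by exact_mod_cast h0) (by exact_mod_cast h)

lemma span_ub (k : ℕ) :
    span (sh R) (m R k) 8 ≤ 2 * m R k + 2 * 4951 ^ (m R k) + 1 := by
  classical
  let Y : Set (XS R) := {x | (∃ t : Fin (m R k), ¬ A.zc (x.1 t)) ∨ R = 0}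
  obtain ⟨S, hcard, hS, hcov⟩ := exists_max (sh R) (T := m R k) (ε := 8) (by norm_num) Y
    (B := 2 * m R k + 2 * 4951 ^ (m R k))
    (fun S hS hY => ub1 k S ((isSep_iff (by norm_num) le_rfl S).1 hS) hY)
  let zp : XS R := ⟨_, z_mem⟩
  have hspan : IsSpan (sh R) (m R k) 8 (insert zp S) := by
    intro x
    by_cases hx : x ∈ Y
    · obtain ⟨s, hs, h⟩ := hcov x hx
      exact ⟨s, Finset.mem_insert_of_mem hs, h⟩
    · refine ⟨zp, Finset.mem_insert_self _ _, ?_⟩
      rw [DT_lt8]
      intro t ht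
      have h1 : A.zc (x.1 t) := by
        by_contra hcon
        exact hx (Or.inl ⟨⟨t, ht⟩, hcon⟩)
      show ¬ A.Sp A.z (x.1 t)
      cases hxt : x.1 t with
      | z => exact fun h => h
      | a w => rw [hxt] at h1; exact h1.elim
      | b w => rw [hxt] at h1; exact h1.elim
      | c w => exact fun h => h
  refine (span_le (sh R) hspan).trans ((Finset.card_insert_le _ _).trans ?_)
  omega

lemma span_lb (k : ℕ) : (Nat.card V) ^ (16 * m R k) ≤ span (sh R) (33 * m R k) 8 := by
  obtain ⟨C, -, hC⟩ := sep_ub (R := R) (δ := 8) (by norm_num)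
  obtain ⟨S₀, -, -, h0⟩ := exists_max (sh R) (T := 33 * m R k) (ε := 8) (by norm_num) Set.univ
    (fun S hS _ => hC _ S hS)
  refine le_span (sh R) (fun S hS => lb1 k S fun x => ?_) (fun x => h0 x (Set.mem_univ x))
  obtain ⟨s, hs, h⟩ := hS x
  exact ⟨s, hs, (DT_lt8 _ _).1 h⟩

lemma le_m (k : ℕ) : k ≤ m R k := by
  have := Blk.le_len (Wd R) k
  unfold m Blk.mm; omega

lemma ab_lt : Real.log 4951 < 16 / 33 * Real.log 75287520 := by
  have h : Real.log ((4951 : ℝ) ^ 33) < Real.log ((75287520 : ℝ) ^ 16) :=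
    Real.log_lt_log (by positivity) (by norm_num)
  rw [Real.log_pow, Real.log_pow] at h
  push_cast at h
  linarith

lemma low_est {u : ℕ → ℕ} (hu : ∀ k, u (m R k) ≤ 2 * m R k + 2 * 4951 ^ (m R k) + 1) {c : ℝ}
    (hc : Real.log 4951 < c) : liminf (rate u) atTop ≤ (c : EReal) := by
  apply Filter.liminf_le_of_frequently_le'
  rw [Filter.frequently_atTop]
  intro K
  obtain ⟨M, hM⟩ := exists_nat_gt (Real.log 4 / (c - Real.log 4951))
  set k := K + M + 1 with hk
  have hkm := le_m (R := R) k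
  refine ⟨m R k, by omega, ?_⟩
  unfold rate
  rw [EReal.coe_le_coe_iff]
  have hTpos : (0 : ℝ) < m R k := by
    have : 0 < m R k := by omega
    exact_mod_cast this
  have h1 : u (m R k) ≤ 4 * 4951 ^ (m R k) := by
    have h2 := hu k
    have h3 : m R k < 4951 ^ (m R k) := Nat.lt_pow_self (by norm_num)
    omega
  have h2 : Real.log (u (m R k)) ≤ Real.log 4 + m R k * Real.log 4951 := by
    refine (log_le_log' h1 (Nat.one_le_iff_ne_zero.2 (by positivity))).trans ?_
    push_cast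
    rw [Real.log_mul (by norm_num) (by positivity), Real.log_pow]
  rw [div_le_iff₀ hTpos]
  have h3 : Real.log 4 < (c - Real.log 4951) * m R k := by
    have h4 : Real.log 4 / (c - Real.log 4951) < m R k :=
      hM.trans_le (by exact_mod_cast (by omega : M ≤ m R k))
    rw [div_lt_iff₀ (by linarith)] at h4
    linarith
  linarith

lemma up_est {u : ℕ → ℕ} (hu : ∀ k, (Nat.card V) ^ (16 * m R k) ≤ u (33 * m R k)) :
    ((16 / 33 * Real.log 75287520 : ℝ) : EReal) ≤ limsup (rate u) atTop := by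
  apply Filter.le_limsup_of_frequently_le'
  rw [Filter.frequently_atTop]
  intro K
  have hkm := le_m (R := R) (K + 1)
  refine ⟨33 * m R (K + 1), by omega, ?_⟩
  unfold rate
  rw [EReal.coe_le_coe_iff]
  have hTpos : (0 : ℝ) < m R (K + 1) := by
    have : 0 < m R (K + 1) := by omega
    exact_mod_cast this
  have h1 := hu (K + 1)
  rw [card_V] at h1
  have h2 := log_le_log' h1 ((Nat.one_le_iff_ne_zero.2 (by positivity)).trans h1)
  push_cast at h2
  rw [Real.log_pow] at h2
  push_cast at h2 ⊢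
  rw [le_div_iff₀ (by positivity)]
  linarith

lemma span_osc : pLow (sh R) 8 < pUp (sh R) 8 := by
  obtain ⟨c, hc1, hc2⟩ := exists_between ab_lt
  have h1 : pLow (sh R) 8 ≤ (c : EReal) := low_est (R := R) span_ub hc1
  have h2 := up_est (R := R) (u := fun T => span (sh R) T 8) span_lb
  exact h1.trans_lt ((EReal.coe_lt_coe_iff.2 hc2).trans_le h2)

lemma sep_osc : sLow (sh 0) 8 < sUp (sh 0) 8 := by
  obtain ⟨c, hc1, hc2⟩ := exists_between ab_lt
  have h1 : sLow (sh 0) 8 ≤ (c : EReal) := by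
    refine low_est (R := 0) (fun k => ?_) hc1
    refine (sep_le (sh 0) (B := 2 * m 0 k + 2 * 4951 ^ (m 0 k)) fun S hS => ?_).trans (by omega)
    exact ub1 k S ((isSep_iff (by norm_num) le_rfl S).1 hS) (fun x _ => Or.inr rfl)
  have h2 : ((16 / 33 * Real.log 75287520 : ℝ) : EReal) ≤ sUp (sh 0) 8 := by
    refine up_est (R := 0) (u := fun T => sep (sh 0) T 8) (fun k => (span_lb k).trans ?_)
    obtain ⟨C, -, hC⟩ := sep_ub (R := 0) (δ := 8) (by norm_num)
    exact span_le_sep (sh 0) (by norm_num) (hC _)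
  exact h1.trans_lt ((EReal.coe_lt_coe_iff.2 hc2).trans_le h2)

lemma entropy_lt : entropy (sh R) < ⊤ := by
  have hA : 0 < Nat.card (A R) := by
    haveI : Nonempty (A R) := ⟨A.z⟩
    exact Nat.card_pos
  refine lt_of_le_of_lt ?_ (EReal.coe_lt_top (Real.log (Nat.card (A R)) + 1))
  unfold entropy
  refine iSup₂_le fun ε hε => ?_
  unfold sUp
  obtain ⟨C, hC0, hC⟩ := sep_ub (R := R) hε
  obtain ⟨M, hM⟩ := exists_nat_gt (Real.log C)
  apply Filter.limsup_le_of_le (by isBoundedDefault)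
  filter_upwards [Filter.eventually_ge_atTop (M + 1)] with T hT
  unfold rate
  rw [EReal.coe_le_coe_iff]
  have hTpos : (0 : ℝ) < T := by
    have : 0 < T := by omega
    exact_mod_cast this
  rw [div_le_iff₀ hTpos]
  have h1 : sep (sh R) T ε ≤ C * (Nat.card (A R)) ^ T :=
    (sep_le (sh R) (hC T)).trans (Nat.mul_le_mul_left _ (pw_le T))
  have h2 := log_le_log' h1 (Nat.one_le_iff_ne_zero.2 (by positivity))
  push_cast at h2
  have hC0' : (0 : ℝ) < C := by exact_mod_cast hC0
  have hA' : (0 : ℝ) < Nat.card (A R) := by exact_mod_cast hA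
  rw [Real.log_mul (by positivity) (by positivity), Real.log_pow] at h2
  have h3 : (M : ℝ) ≤ T := by exact_mod_cast (by omega : M ≤ T)
  nlinarith

lemma reg_of_tendsto {u : ℕ → ℕ} {L : ℝ}
    (h : Tendsto (fun T : ℕ => Real.log (u T) / T) atTop (𝓝 L)) :
    liminf (rate u) atTop = limsup (rate u) atTop := by
  have h1 : Tendsto (rate u) atTop (𝓝 (L : EReal)) :=
    (continuous_coe_real_ereal.tendsto L).comp h
  rw [h1.liminf_eq, h1.limsup_eq]

lemma reg_small {δ : ℝ} (hδ : 0 < δ) (hδ4 : δ ≤ 4) : sLow (sh R) δ = sUp (sh R) δ := by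
  obtain ⟨C, hC0, hC⟩ := sep_ub (R := R) hδ
  have hsub : Subadditive fun n => Real.log (pw R n) := by
    intro a b
    have h1 := log_le_log' (pw_sub (R := R) a b) (Nat.mul_pos (pw_pos a) (pw_pos b))
    push_cast at h1
    have ha : (0 : ℝ) < pw R a := by exact_mod_cast pw_pos a
    have hb : (0 : ℝ) < pw R b := by exact_mod_cast pw_pos b
    rw [Real.log_mul ha.ne' hb.ne'] at h1
    exact h1
  have hbdd : BddBelow (Set.range fun n : ℕ => Real.log (pw R n) / n) := by
    refine ⟨0, ?_⟩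
    rintro _ ⟨n, rfl⟩
    exact div_nonneg (Real.log_nonneg (by exact_mod_cast pw_pos n)) (Nat.cast_nonneg n)
  have hlim := hsub.tendsto_lim hbdd
  have hC0' : (0 : ℝ) < C := by exact_mod_cast hC0
  have hup : Tendsto (fun n : ℕ => Real.log C / n + Real.log (pw R n) / n) atTop
      (𝓝 (0 + hsub.lim)) :=
    (tendsto_const_div_atTop_nhds_zero_nat _).add hlim
  rw [zero_add] at hup
  refine reg_of_tendsto (L := hsub.lim) (tendsto_of_tendsto_of_tendsto_of_le_of_le hlim hup ?_ ?_)
  · intro T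
    obtain ⟨S, hS, hcard⟩ := sep_lb (R := R) hδ hδ4 T
    have h1 : pw R T ≤ sep (sh R) T δ := by
      rw [← hcard]; exact le_sep (sh R) (hC T) hS
    exact div_le_div_of_nonneg_right (log_le_log' h1 ((pw_pos T).trans_le h1)) (Nat.cast_nonneg T)
  · intro T
    have h1 : sep (sh R) T δ ≤ C * pw R T := sep_le (sh R) (hC T)
    have h2 := log_le_log' h1 (Nat.mul_pos hC0 (pw_pos T))
    push_cast at h2
    have hp : (0 : ℝ) < pw R T := by exact_mod_cast pw_pos T
    rw [Real.log_mul hC0'.ne' hp.ne'] at h2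
    show Real.log (sep (sh R) T δ) / T ≤ Real.log C / T + Real.log (pw R T) / T
    rw [← add_div]
    exact div_le_div_of_nonneg_right h2 (Nat.cast_nonneg T)

lemma reg_large {δ : ℝ} (hδ : 8 < δ) : sLow (sh R) δ = sUp (sh R) δ := by
  have h1 : ∀ T, ∀ S, IsSep (sh R) T δ S → S.card ≤ 1 := by
    intro T S hS
    rw [Finset.card_le_one]
    intro a ha b hb
    by_contra hne
    obtain ⟨t, ht⟩ := (le_DT (sh R) (by linarith)).1 (hS a ha b hb hne)
    have := dist_le8 ((sh R : XS R → XS R)^[t] a) ((sh R : XS R → XS R)^[t] b)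
    linarith
  have h2 : ∀ T, sep (sh R) T δ = 1 := by
    intro T
    apply le_antisymm (sep_le (sh R) (h1 T))
    have h3 : IsSep (sh R) T δ {⟨_, z_mem⟩} := by
      intro a ha b hb hne
      simp only [Finset.mem_singleton] at ha hb
      exact (hne (ha.trans hb.symm)).elim
    have := le_sep (sh R) (h1 T) h3
    simpa using this
  refine reg_of_tendsto (L := 0) ?_
  simp [h2]

lemma reg_mid (hR : R = 1 + 2 * Nat.card V) {δ : ℝ} (h4 : 4 < δ) (h8 : δ ≤ 8) :
    sLow (sh R) δ = sUp (sh R) δ := by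
  haveI : NeZero R := ⟨by omega⟩
  have hR1 : 1 ≤ R := by omega
  have hRpos : (0 : ℝ) < R := by exact_mod_cast hR1
  have hub : ∀ T : ℕ, 1 ≤ T → ∀ S, IsSep (sh R) T δ S → S.card ≤ 6 * T ^ 2 * R ^ T := by
    intro T hT S hS
    have hS' := (isSep_iff h4 h8 S).1 hS
    have hex : ∃ k, T ≤ Blk.gp (Wd R) k := by
      obtain ⟨k, hk⟩ := exists_m_ge (R := R) T
      exact ⟨k, hk.trans (Blk.mm_le_gp (Wd R) k)⟩
    obtain ⟨k, hk, hmin⟩ : ∃ k, T ≤ Blk.gp (Wd R) k ∧ ∀ j < k, ¬ T ≤ Blk.gp (Wd R) j := by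
      classical
      exact ⟨Nat.find hex, Nat.find_spec hex, fun j hj => Nat.find_min hex hj⟩
    have hln : ln R k ≤ 2 * T ^ 2 := by
      cases k with
      | zero => show 0 ≤ _; omega
      | succ k =>
        have h1 := hmin k (by omega)
        have h2 := Blk.len_le_gp (Wd R) k
        show (Blk.bl (Wd R) (k + 1)).len ≤ _
        nlinarith
    have h1 := ub2 hk S hS'
    rw [← hR] at h1
    have h2 : 1 ≤ R ^ T := Nat.one_le_pow _ _ hR1
    have h3 : T ≤ T ^ 2 := by nlinarith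
    calc S.card ≤ (2 * T ^ 2 + T + 1) + R ^ T + R ^ T := by omega
      _ ≤ (4 * T ^ 2) * R ^ T + R ^ T + R ^ T := by nlinarith
      _ ≤ 6 * T ^ 2 * R ^ T := by nlinarith
  have hlb : ∀ T : ℕ, 1 ≤ T → R ^ T ≤ sep (sh R) T δ := by
    intro T hT
    obtain ⟨S, hS, hcard⟩ := lb2 (R := R) T
    rw [← hcard]
    exact le_sep (sh R) (hub T hT) ((isSep_iff h4 h8 S).2 hS)
  have hlog : Tendsto (fun T : ℕ => Real.log T / T) atTop (𝓝 0) :=
    Real.isLittleO_log_id_atTop.tendsto_div_nhds_zero.comp tendsto_natCast_atTop_atTop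
  have hup : Tendsto (fun T : ℕ => Real.log 6 / T + 2 * (Real.log T / T) + Real.log R) atTop
      (𝓝 (0 + 2 * 0 + Real.log R)) :=
    ((tendsto_const_div_atTop_nhds_zero_nat _).add (hlog.const_mul 2)).add tendsto_const_nhds
  rw [mul_zero, add_zero, zero_add] at hup
  refine reg_of_tendsto (L := Real.log R)
    (tendsto_of_tendsto_of_tendsto_of_le_of_le' tendsto_const_nhds hup ?_ ?_)
  · filter_upwards [Filter.eventually_ge_atTop 1] with T hT
    have hTpos : (0 : ℝ) < T := by exact_mod_cast hT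
    have h1 := log_le_log' (hlb T hT) ((Nat.one_le_pow _ _ hR1).trans (hlb T hT))
    push_cast at h1
    rw [Real.log_pow] at h1
    rw [le_div_iff₀ hTpos]
    linarith
  · filter_upwards [Filter.eventually_ge_atTop 1] with T hT
    have hTpos : (0 : ℝ) < T := by exact_mod_cast hT
    have h1 := log_le_log' (sep_le (sh R) (hub T hT))
      (Nat.one_le_iff_ne_zero.2 (by positivity))
    push_cast at h1
    rw [Real.log_mul (by positivity) (by positivity), Real.log_mul (by norm_num) (by positivity),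
      Real.log_pow, Real.log_pow] at h1
    push_cast at h1
    rw [div_le_iff₀ hTpos]
    have e : (Real.log 6 / T + 2 * (Real.log T / T) + Real.log R) * T
        = Real.log 6 + 2 * Real.log T + T * Real.log R := by
      field_simp
    rw [e]
    exact h1

/-- **Q1 and Q2 both have a positive answer.**  There is a topologically transitive homeomorphism
of a compact metric space with finite topological entropy such that for some `ε > 0` both
`pLow < pUp` and `sLow < sUp`; and there is a topologically transitive homeomorphism of a compact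
metric space with finite topological entropy such that `pLow < pUp` for some `ε > 0` while
`sLow = sUp` at every scale. -/
theorem result :
    (∃ (X : Type) (_ : MetricSpace X) (_ : CompactSpace X) (F : X ≃ₜ X),
      Transitive F ∧ entropy F < ⊤ ∧
      ∃ ε : ℝ, 0 < ε ∧ pLow F ε < pUp F ε ∧ sLow F ε < sUp F ε) ∧
    (∃ (X : Type) (_ : MetricSpace X) (_ : CompactSpace X) (F : X ≃ₜ X),
      Transitive F ∧ entropy F < ⊤ ∧
      (∃ ε : ℝ, 0 < ε ∧ pLow F ε < pUp F ε) ∧ ∀ δ : ℝ, 0 < δ → sLow F δ = sUp F δ) := by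
  refine ⟨⟨XS 0, inferInstance, inferInstance, sh 0, transitive_sh, entropy_lt, 8, by norm_num,
    span_osc, sep_osc⟩, ⟨XS (1 + 2 * Nat.card V), inferInstance, inferInstance,
    sh (1 + 2 * Nat.card V), transitive_sh, entropy_lt, ⟨8, by norm_num, span_osc⟩, ?_⟩⟩
  intro δ hδ
  rcases le_or_gt δ 4 with h4 | h4
  · exact reg_small hδ h4
  · rcases le_or_gt δ 8 with h8 | h8
    · exact reg_mid rfl h4 h8
    · exact reg_large h8

end Pool.Agent.Results.MP_307271_an.OscillatingGrowth
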